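import Pool.Agent.MP_699d75_co.Mg.Piece

open Pool.Agent.MP_699d75_co

namespace Pool.Agent.Results.MP_699d75_co.GridSums

/-- Graphs glued along at most two vertices, over a countable rayless forest, from finite grids
with diagonals and from blocks of bounded size are well-quasi-ordered by the minor relation. -/
theorem result (k : ℕ) (V : ℕ → Type) (G : ∀ n, SimpleGraph (V n)) (h : ∀ n, GridSum k (G n)) :
    ∃ i j : ℕ, i < j ∧
      ∃ B : V i → Set (V j),
        (∀ h, ((G j).induce (B h)).Connected) ∧
        (∀ h h', h ≠ h' → Disjoint (B h) (B h')) ∧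
        (∀ h h', (G i).Adj h h' → ∃ a ∈ B h, ∃ b ∈ B h', (G j).Adj a b) :=
  H80W.wqo_gridSum k V G h

end Pool.Agent.Results.MP_699d75_co.GridSums
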